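import Pool.Agent.Helper62.CX.Stm

/-! # Packages C10 (C_Data) and C15 (C_Half) -/

set_option autoImplicit false

open Polynomial Matrix Finset

namespace Pool.Agent.Helper82.CX

open Pool.Agent.Helper62.BM Pool.Agent.Helper62.BW Pool.Agent.Helper62.BX Pool.Agent.Helper62.CX

/-- the degree and the leading coefficient of `f' g` -/
theorem der_mul {A : Type} [CommRing A] (f g : A[X]) (hf : f.Monic) (hg : g.Monic) :
    (derivative f * g).natDegree ≤ f.natDegree + g.natDegree - 1 ∧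
      (derivative f * g).coeff (f.natDegree + g.natDegree - 1) = f.natDegree := by
  rcases Nat.eq_zero_or_pos f.natDegree with h0 | h0
  · have h1 : f = 1 := by
      have := eq_C_of_natDegree_eq_zero h0
      rw [Monic, leadingCoeff, h0] at hf
      rw [this, hf, map_one]
    subst h1
    simp
  · have h1 : (derivative f).natDegree ≤ f.natDegree - 1 := natDegree_derivative_le f
    have h2 : f.natDegree + g.natDegree - 1 = (f.natDegree - 1) + g.natDegree := by omega
    rw [h2]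
    refine ⟨natDegree_mul_le.trans (Nat.add_le_add_right h1 _), ?_⟩
    rw [coeff_mul_add_eq_of_natDegree_le h1 le_rfl, coeff_derivative]
    have h3 : f.natDegree - 1 + 1 = f.natDegree := Nat.sub_add_cancel h0
    have h4 : ((f.natDegree - 1 : ℕ) : A) + 1 = (f.natDegree : A) := by
      exact_mod_cast congrArg (Nat.cast (R := A)) h3
    rw [h3, h4, hf.coeff_natDegree, hg.coeff_natDegree, one_mul, mul_one]

theorem dt_mul {A : Type} [CommRing A] (a b : A[X][X]) : dt (a * b) = dt a * b + a * dt b := by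
  ext1 n
  rw [coeff_dt, coeff_mul, coeff_add, coeff_mul, coeff_mul, derivative_sum,
    ← Finset.sum_add_distrib]
  refine Finset.sum_congr rfl fun x _ => ?_
  rw [derivative_mul, coeff_dt, coeff_dt]

/-- the two factors at the node -/
theorem factor {A : Type} [CommRing A] [IsDomain A] {n : ℕ} {a : A[X][X]} (ha : a.Monic)
    (hn : a.natDegree = n) {t₀ x₀ : A} {a₁ : A[X]}
    (h : a.map (evalRingHom t₀) = (X - Polynomial.C x₀) * a₁) :
    a₁.Monic ∧ a₁.natDegree + 1 = n := by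
  have h1 : (a.map (evalRingHom t₀)).Monic := ha.map _
  have h2 : a₁.Monic := by
    rw [h] at h1
    exact (monic_X_sub_C x₀).of_mul_monic_left h1
  refine ⟨h2, ?_⟩
  have h3 : (a.map (evalRingHom t₀)).natDegree = n := by rw [ha.natDegree_map, hn]
  rw [h, (monic_X_sub_C x₀).natDegree_mul h2, natDegree_X_sub_C] at h3
  omega

theorem c_Data (hLoc : C_Loc) (hRk : C_Rk) : C_Data := by
  intro A _ _ _ m r na nb N hr hrm hN2 hN a b hG t₀ x₀ a₁ b₁ hNd
  obtain ⟨w, P, S, hw, hR⟩ := hLoc A m r na nb N hr hrm hN a b hG t₀ x₀ a₁ b₁ hNd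
  obtain ⟨ha1, ha2⟩ := factor hG.1 hG.2.2.1 hNd.1
  obtain ⟨hb1, hb2⟩ := factor hG.2.1 hG.2.2.2.1 hNd.2.1
  obtain ⟨u1, u2⟩ := der_mul a₁ b₁ ha1 hb1
  obtain ⟨v1, v2⟩ := der_mul b₁ a₁ hb1 ha1
  obtain ⟨U, hU⟩ : ∃ U : A[X], U = ((m - r : ℕ) : A[X]) * derivative a₁ * b₁ +
    (r : A[X]) * a₁ * derivative b₁ := ⟨_, rfl⟩
  have hU' : U = ((m - r : ℕ) : A[X]) * (derivative a₁ * b₁) +
      (r : A[X]) * (derivative b₁ * a₁) := by rw [hU]; ring
  have hab : b₁.natDegree + a₁.natDegree - 1 = a₁.natDegree + b₁.natDegree - 1 := by omega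
  rw [hab] at v1 v2
  have hUd : U.natDegree ≤ a₁.natDegree + b₁.natDegree - 1 := by
    rw [hU']
    refine natDegree_add_le_of_degree_le ?_ ?_
    · exact (natDegree_mul_le.trans (by rw [natDegree_natCast, zero_add])).trans u1
    · exact (natDegree_mul_le.trans (by rw [natDegree_natCast, zero_add])).trans v1
  have hUc : U.coeff (a₁.natDegree + b₁.natDegree - 1) =
      (((m - r) * a₁.natDegree + r * b₁.natDegree : ℕ) : A) := by
    rw [hU', coeff_add, coeff_natCast_mul, coeff_natCast_mul, u2, v2]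
    push_cast
    ring
  have hUc0 : U.coeff (a₁.natDegree + b₁.natDegree - 1) ≠ 0 := by
    rw [hUc, Nat.cast_ne_zero]
    have h1 : 0 < a₁.natDegree + b₁.natDegree := by omega
    have h2 : 0 < m - r := by omega
    rcases Nat.eq_zero_or_pos a₁.natDegree with h3 | h3
    · have h4 : 0 < b₁.natDegree := by omega
      have := Nat.mul_pos hr h4
      omega
    · have := Nat.mul_pos h2 h3
      omega
  obtain ⟨V, hV⟩ : ∃ V : A[X], V = (X - Polynomial.C x₀) * U := ⟨_, rfl⟩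
  have hVd : V.natDegree < N := by
    have h1 : V.natDegree ≤ 1 + U.natDegree := by
      rw [hV]
      refine natDegree_mul_le.trans ?_
      rw [natDegree_X_sub_C]
    omega
  have hV0 : V.eval x₀ = 0 := by
    rw [hV, eval_mul, eval_sub, eval_X, eval_C, sub_self, zero_mul]
  have hVc : V.coeff (N - 1) ≠ 0 := by
    have h1 : N - 1 = (a₁.natDegree + b₁.natDegree - 1) + 1 := by omega
    have h2 : U.coeff (a₁.natDegree + b₁.natDegree - 1 + 1) = 0 :=
      coeff_eq_zero_of_natDegree_lt (by omega)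
    rw [h1, hV, sub_mul, coeff_sub, coeff_X_mul, coeff_C_mul, h2, mul_zero, sub_zero]
    exact hUc0
  refine ⟨⟨Mc P S, w, t₀, fun i => x₀ ^ (i : ℕ), fun i => V.coeff i,
    (m : A) * (a₁ * b₁).eval x₀, w.eval t₀⟩, P, S, ⟨hG, hN, hR, rfl⟩, hw, ?_, hw, ?_, ?_, ?_, ?_⟩
  · exact mul_ne_zero (Nat.cast_ne_zero.2 (by omega)) hNd.2.2.2.1
  · intro h
    have h1 := congrFun h ⟨0, by omega⟩
    simp at h1
  · intro h
    have h1 := congrFun h ⟨N - 1, by omega⟩
    exact hVc h1
  · show ∑ i : Fin N, x₀ ^ (i : ℕ) * V.coeff (i : ℕ) = 0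
    rw [eval_eq_sum_range' hVd, ← Fin.sum_univ_eq_sum_range (fun i => V.coeff i * x₀ ^ i)] at hV0
    rw [← hV0]
    exact Finset.sum_congr rfl fun i _ => mul_comm _ _
  · intro i j
    have h1 := hRk A m r na nb N hr hrm hN a b hG t₀ x₀ a₁ b₁ hNd w P S hR i j
    rw [← hU, ← hV] at h1
    exact h1

theorem c_Half (hLoc : C_Loc) (hRk : C_Rk) (hHor : W_Hor) (hQ : W_QDet) (hQe : W_Qe) :
    C_Half := by
  intro A _ _ _ na nb g hg hN a b hG t₀ x₀ a₁ b₁ hNd
  obtain ⟨w, P, S, hw, hR⟩ := hLoc A 2 1 na nb (2 * g) one_pos one_lt_two hN a b hG t₀ x₀ a₁ b₁ hNd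
  have hG' : Gen g (a * b) := by
    refine ⟨hG.1.mul hG.2.1, ?_, hG.2.2.2.2⟩
    rw [hG.1.natDegree_mul hG.2.1, hG.2.2.1, hG.2.2.2.1, hN]
  obtain ⟨q1, q2, δ, δ', hδ, hδ', q3, q4⟩ := hQ A g hg (a * b) hG'.1 hG'.2.1
  have hLam : ∀ a' b' : A[X][X], Lam 2 1 a b a' b' = a' * b + a * b' := by
    intro a' b'
    unfold Lam
    simp
  have hR' : Rel g (a * b) ((X - Polynomial.C t₀) * (2 * w)) (fun l => 2 * P l) S := by
    intro l
    obtain ⟨h1, h2, h3⟩ := hR l
    refine ⟨?_, h2, ?_⟩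
    · refine lt_of_le_of_lt (natDegree_mul_le.trans ?_) h1
      rw [natDegree_ofNat, zero_add]
    · rw [hLam, hLam, ← dt_mul] at h3
      have h4 : derivative a * b + a * derivative b = derivative (a * b) := by
        rw [derivative_mul]
      rw [h4] at h3
      have h5 : Polynomial.C ((X - Polynomial.C t₀) * (2 * w)) =
          2 * Polynomial.C ((X - Polynomial.C t₀) * w) := by
        rw [show (X - Polynomial.C t₀) * (2 * w) = 2 * ((X - Polynomial.C t₀) * w) by ring,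
          Polynomial.C_mul]
        rfl
      rw [h5]
      push_cast at h3
      linear_combination 2 * h3
  have hM : ∀ i l, Mg (fun l => 2 * P l) S i l = 2 * Mc P S i l := by
    intro i l
    show -(2 * P l + 2 * derivative (S l)).coeff (i : ℕ) = 2 * -(P l + derivative (S l)).coeff (i : ℕ)
    rw [← mul_add, coeff_ofNat_mul]
    ring
  refine ⟨⟨Mg (fun l => 2 * P l) S, Q2F (2 * g) (a * b), 2 * w, t₀, fun i => x₀ ^ (i : ℕ),
    (a₁ * b₁).eval x₀, w.eval t₀, δ, δ'⟩, fun l => 2 * P l, S, ⟨hG', hR', rfl, rfl⟩, q1, q2, q3, q4,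
    hδ, hδ', ?_, ?_, hw, ?_, ?_, ?_⟩
  · show (2 * w).eval t₀ ≠ 0
    rw [eval_mul, eval_ofNat]
    exact mul_ne_zero two_ne_zero hw
  · exact hNd.2.2.2.1
  · intro h
    have h1 := congrFun h ⟨0, by omega⟩
    simp at h1
  · exact hHor A two_ne_zero g hg (a * b) hG' _ _ S hR'
  · intro i j
    show (a₁ * b₁).eval x₀ * (Mg (fun l => 2 * P l) S i j).eval t₀ = w.eval t₀ *
      (∑ l : Fin (2 * g), (Q2F (2 * g) (a * b) i l).eval t₀ * x₀ ^ (l : ℕ)) * x₀ ^ (j : ℕ)
    have hf : (a * b).map (evalRingHom t₀) = (X - Polynomial.C x₀) ^ 2 * (a₁ * b₁) := by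
      rw [Polynomial.map_mul, hNd.1, hNd.2.1]
      ring
    have h1 := hRk A 2 1 na nb (2 * g) one_pos one_lt_two hN a b hG t₀ x₀ a₁ b₁ hNd w P S hR i j
    have h2 : ((2 - 1 : ℕ) : A[X]) * derivative a₁ * b₁ + ((1 : ℕ) : A[X]) * a₁ * derivative b₁ =
        derivative (a₁ * b₁) := by
      rw [derivative_mul]
      simp
    rw [h2] at h1
    have h3 : (2 * Mc P S i j).eval t₀ = 2 * (Mc P S i j).eval t₀ := by
      rw [Polynomial.eval_mul, Polynomial.eval_ofNat]
    rw [hQe A g hg (a * b) hG'.2.1 t₀ x₀ (a₁ * b₁) hf, hM, h3]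
    rw [← h1]
    push_cast
    ring

end Pool.Agent.Helper82.CX
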